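import Pool.Agent.Helper10.EN.S12
import Pool.Agent.Helper78.TR.Defs
import Pool.Agent.Helper98.TR.B
import Pool.Agent.Helper87.TR.CCore2

/-! Project TW, leaf D, general form: the weighted sieve for a finite set of numbers in a class. -/

set_option autoImplicit false

namespace Pool.Agent.Helper87.TW

open Finset Filter Pool.Agent.Helper10 Pool.Agent.Helper10.P5 Pool.Agent.Helper10.P4
  Pool.Agent.Helper10.P3 Pool.Agent.Helper10.SQ Pool.Agent.Helper10.EN Pool.Agent.Helper78.TR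

lemma dvd_mp (m t p : ℕ) (hm : 0 < m) (ht : 0 < t) (hp : p.Prime) (hpm : p ∣ m) (hpt : p ∣ t) :
    p ∣ mp m t := by
  unfold mp
  have h1 : p ∈ m.primeFactors := Nat.mem_primeFactors.2 ⟨hp, hpm, by omega⟩
  refine dvd_trans ?_ (Finset.dvd_prod_of_mem (fun p => p ^ t.factorization p) h1)
  have h2 : t.factorization p ≠ 0 := by
    have := (hp.dvd_iff_one_le_factorization (by omega)).1 hpt
    omega
  exact dvd_pow_self p h2

/-- The sifted pairs. -/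
lemma sift_eqG (E : Finset ℕ) (m T : ℕ) (x : ℝ) (hm : 0 < m) (hm10 : m.Coprime 10)
    (hx : (m : ℝ) ≤ Real.exp x) :
    sift (E ×ˢ Icc 1 T) (fun x : ℕ × ℕ => x.1 * mp m x.2) (zf x) =
      (sift E (fun N => N) (zf x)) ×ˢ ((Icc 1 T).filter (fun t => t.Coprime m)) := by
  ext ⟨e, t⟩
  unfold sift
  simp only [mem_filter, mem_product, mem_Icc]
  constructor
  · rintro ⟨⟨he, ht1, ht2⟩, h⟩
    have hcop : t.Coprime m := by
      by_contra hn
      obtain ⟨p, hp, hpt, hpm⟩ := Nat.Prime.not_coprime_iff_dvd.1 hn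
      have hpm' : p ≤ m := Nat.le_of_dvd hm hpm
      have hp0 : (0 : ℝ) < p := by exact_mod_cast hp.pos
      have h1 : p ∈ PP (zf x) := by
        rw [mem_PP_zf]
        refine ⟨⟨hp, Nat.Coprime.coprime_dvd_left hpm hm10⟩, ?_⟩
        rw [Real.log_le_iff_le_exp hp0]
        exact le_trans (by exact_mod_cast hpm') hx
      exact h p h1 (Dvd.dvd.mul_left (dvd_mp m t p hm (by omega) hp hpm hpt) _)
    exact ⟨⟨he, fun p hp hd => h p hp (Dvd.dvd.mul_right hd _)⟩, ⟨ht1, ht2⟩, hcop⟩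
  · rintro ⟨⟨he, h⟩, ⟨ht1, ht2⟩, hcop⟩
    refine ⟨⟨he, ht1, ht2⟩, fun p hp hd => h p hp ?_⟩
    rwa [(Pool.Agent.Helper98.TR.mp_one_iff m t hm (by omega)).2 hcop, mul_one] at hd

theorem sieveG_gen : ∃ (j : ℕ) (Λ : ℝ), ∀ lam : ℝ, Λ ≤ lam →
    ∀ (E : Finset ℕ) (Y : ℝ) (R : ℕ → ℝ) (m a : ℕ), 0 ≤ Y → (∀ q, 0 ≤ R q) →
    (∀ M r : ℕ, 0 < M → M.Coprime 10 →
      |((E.filter (fun N => N ≡ r [MOD M])).card : ℝ) - Y / M| ≤ R M) →
    0 < m → m.Coprime 10 → a.Coprime m → (m : ℝ) ≤ Real.exp ((1000 : ℝ) / 5216 * lam) →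
    ((m : ℝ) / m.totient) * (Y / m / (2 / 5 * lam) * (19 / 1000) -
      lam ^ j * (hsum j ⌊2 * Real.exp lam⌋₊ * errK j R (m * ⌊2 * Real.exp lam⌋₊))) ≤
    ∑ N ∈ sift (E.filter (fun N => N ≡ a [MOD m])) (fun N => N) (zf ((1000 : ℝ) / 5216 * lam)),
      (1 - 8645 / 10000 * ∑ p ∈ (PC ((1000 : ℝ) / 5216 * lam) (5137 / 5216 * lam)).filter
        (fun p => p ∣ N), (1 - Real.log p / (5137 / 5216 * lam))) := by
  obtain ⟨j, Λ, hmain⟩ := numW
  refine ⟨j, max Λ 0, fun lam hlam E Y R m a hY hR hcl hm hm10 ha hmle => ?_⟩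
  have hl1 : Λ ≤ lam := (le_max_left _ _).trans hlam
  have hl0 : 0 ≤ lam := (le_max_right _ _).trans hlam
  obtain ⟨Q, hQ⟩ : ∃ Q : ℕ, Q = ⌊2 * Real.exp lam⌋₊ := ⟨_, rfl⟩
  rw [← hQ]
  have hX0 : 0 ≤ Y / (m : ℝ) * (Q.factorial : ℝ) := by positivity
  have h := hmain lam hl1 (ℕ × ℕ) ((E.filter (fun N => N ≡ a [MOD m])) ×ˢ Icc 1 Q.factorial)
    (fun x : ℕ × ℕ => x.1 * mp m x.2) (Y / (m : ℝ) * (Q.factorial : ℝ))
    (fun q : ℕ => |((((E.filter (fun e => e ≡ a [MOD m])) ×ˢ Icc 1 Q.factorial).filter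
        (fun x => q ∣ x.1 * mp m x.2)).card : ℝ) - Y / (m : ℝ) * (Q.factorial : ℝ) / q|)
    ⟨hX0, fun q => abs_nonneg _, fun q _ _ => le_refl _⟩
  have hE := Pool.Agent.Helper87.TR.errA_core10 E (fun N => N) Y R (mp m) j m a Q hm hm10 ha hR
    hcl (fun q hq => Pool.Agent.Helper98.TR.mp_spec m q hm hq)
    (fun N q t hN hq ht => Pool.Agent.Helper98.TR.dvd_iff m N q t hm hN hq ht)
    (fun q1 h1 h2 => Pool.Agent.Helper98.TR.count_dvd Q q1 h1 h2)
  rw [← hQ, sift_eqG _ m Q.factorial _ hm hm10 hmle, Finset.sum_product] at h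
  have hin : ∀ e ∈ sift (E.filter (fun N => N ≡ a [MOD m])) (fun N => N)
      (zf ((1000 : ℝ) / 5216 * lam)),
      ∑ t ∈ (Icc 1 Q.factorial).filter (fun t => t.Coprime m),
        (1 - 8645 / 10000 * ∑ p ∈ (PC ((1000 : ℝ) / 5216 * lam) (5137 / 5216 * lam)).filter
          (fun p => p ∣ (e, t).1 * mp m (e, t).2), (1 - Real.log p / (5137 / 5216 * lam))) =
      (((Icc 1 Q.factorial).filter (fun t => t.Coprime m)).card : ℝ) *
        (1 - 8645 / 10000 * ∑ p ∈ (PC ((1000 : ℝ) / 5216 * lam) (5137 / 5216 * lam)).filter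
          (fun p => p ∣ e), (1 - Real.log p / (5137 / 5216 * lam))) := by
    intro e _
    rw [← nsmul_eq_mul, ← Finset.sum_const]
    refine Finset.sum_congr rfl fun t ht => ?_
    obtain ⟨ht1, ht2⟩ := mem_filter.1 ht
    have ht0 : 0 < t := (mem_Icc.1 ht1).1
    have e1 : (e, t).1 * mp m (e, t).2 = e := by
      show e * mp m t = e
      rw [(Pool.Agent.Helper98.TR.mp_one_iff m t hm ht0).2 ht2, mul_one]
    rw [e1]
  rw [Finset.sum_congr rfl hin, ← Finset.mul_sum] at h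
  have hmQ : m ∣ Q.factorial := by
    apply Nat.dvd_factorial hm
    rw [hQ]
    apply Nat.le_floor
    have h1 : Real.exp ((1000 : ℝ) / 5216 * lam) ≤ Real.exp lam :=
      Real.exp_le_exp.2 (by nlinarith)
    have h2 := Real.exp_pos lam
    linarith
  rw [Pool.Agent.Helper98.TR.count_coprime _ m hm hmQ] at h
  have hT : (0 : ℝ) < (Q.factorial : ℝ) := by exact_mod_cast Nat.factorial_pos Q
  have hm0 : (0 : ℝ) < m := by exact_mod_cast hm
  have hφ : (0 : ℝ) < (m.totient : ℝ) := by exact_mod_cast Nat.totient_pos.2 hm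
  obtain ⟨W, hW⟩ : ∃ W : ℝ, W = ∑ N ∈ sift (E.filter (fun N => N ≡ a [MOD m])) (fun N => N)
      (zf ((1000 : ℝ) / 5216 * lam)),
      (1 - 8645 / 10000 * ∑ p ∈ (PC ((1000 : ℝ) / 5216 * lam) (5137 / 5216 * lam)).filter
        (fun p => p ∣ N), (1 - Real.log p / (5137 / 5216 * lam))) := ⟨_, rfl⟩
  rw [← hW] at h ⊢
  obtain ⟨T, hTe⟩ : ∃ T : ℝ, T = (Q.factorial : ℝ) := ⟨_, rfl⟩
  obtain ⟨S, hS⟩ : ∃ S : ℝ, S = hsum j Q * errK j R (m * Q) := ⟨_, rfl⟩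
  obtain ⟨G, hG⟩ : ∃ G : ℝ, G = Y / m / (2 / 5 * lam) * (19 / 1000) := ⟨_, rfl⟩
  have eX : Y / (m : ℝ) * (Q.factorial : ℝ) / (2 / 5 * lam) * (19 / 1000) = T * G := by
    rw [hG, hTe]
    ring
  rw [eX] at h
  have hE' : errK j (fun q : ℕ => |((((E.filter (fun e => e ≡ a [MOD m])) ×ˢ
        Icc 1 Q.factorial).filter (fun x => q ∣ x.1 * mp m x.2)).card : ℝ) -
        Y / (m : ℝ) * (Q.factorial : ℝ) / q|) Q ≤ T * S := by
    rw [hTe, hS]
    exact hE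
  rw [← hTe] at h hT hE'
  rw [← hS, ← hG]
  have hlj : 0 ≤ lam ^ j := pow_nonneg hl0 j
  have h3 : T * (G - lam ^ j * S) ≤ T * ((m.totient : ℝ) / m) * W := by
    have h4 := mul_le_mul_of_nonneg_left hE' hlj
    nlinarith
  have h5 : G - lam ^ j * S ≤ (m.totient : ℝ) / m * W := by
    have h6 : T * (G - lam ^ j * S) ≤ T * ((m.totient : ℝ) / m * W) := by
      rw [← mul_assoc]
      exact h3
    exact le_of_mul_le_mul_left h6 hT
  calc (m : ℝ) / m.totient * (G - lam ^ j * S) ≤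
        (m : ℝ) / m.totient * ((m.totient : ℝ) / m * W) :=
        mul_le_mul_of_nonneg_left h5 (by positivity)
    _ = W := by field_simp

end Pool.Agent.Helper87.TW
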