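import Pool.Agent.Helper10.TW.Defs
import Pool.Agent.Helper87.TW.SieveG

/-! Project TW, leaf D. -/

set_option autoImplicit false

namespace Pool.Agent.Helper10.TW

open Finset Filter Pool.Agent.Helper10 Pool.Agent.Helper10.P5 Pool.Agent.Helper10.P4
  Pool.Agent.Helper10.P3 Pool.Agent.Helper10.SQ Pool.Agent.Helper10.EN Pool.Agent.Helper15.SI

/-- TW-D. -/
theorem sieveG : ∃ (j : ℕ) (Λ : ℝ), ∀ lam : ℝ, Λ ≤ lam → ∀ (E : Finset ℕ) (Y : ℝ) (R : ℕ → ℝ)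
    (m a : ℕ), 0 ≤ Y → (∀ q, 0 ≤ R q) →
    (∀ M r : ℕ, 0 < M → M.Coprime 10 →
      |((cls E M r).card : ℝ) - Y / M| ≤ R M) →
    0 < m → m.Coprime 10 → a.Coprime m → (m : ℝ) ≤ Real.exp ((1000 : ℝ) / 5216 * lam) →
    ((m : ℝ) / m.totient) * (Y / m / (2 / 5 * lam) * (19 / 1000) -
      lam ^ j * (hsum j ⌊2 * Real.exp lam⌋₊ * errK j R (m * ⌊2 * Real.exp lam⌋₊))) ≤
    ∑ N ∈ sift (cls E m a) (fun N => N) (zf ((1000 : ℝ) / 5216 * lam)), wN lam N := by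
  obtain ⟨j, Λ, h⟩ := Pool.Agent.Helper87.TW.sieveG_gen
  exact ⟨j, Λ, fun lam hlam E Y R m a hY hR hcl hm hm10 ha hmle =>
    h lam hlam E Y R m a hY hR hcl hm hm10 ha hmle⟩

end Pool.Agent.Helper10.TW
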