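import Pool.Agent.Helper87.LZ.CaseB

/-!
# Cabling: `T_r` at `t` is `T_(k r)` to the power `k` at a `k`-th root of `t`

The colours are made constant on blocks of length `k`.
-/

set_option autoImplicit false

namespace Pool.Agent.Helper87.TW

open Pool.Agent.Helper87.LZ

/-- the block-constant extension, in the coordinates `Λ` (`u ^ k = t`) -/
noncomputable def emb (t u : ℂ) (k : ℕ) (L : ℕ → ℂ) : ℕ → ℂ := fun m =>
  u ^ (m % k) * ((1 - t) / (1 - u)) * L (m / k) +
    (1 - u ^ (m % k)) / (1 - u) * (L (m / k + 1) - t * L (m / k))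

variable {t u : ℂ} {k : ℕ}

theorem emb_add (L : ℕ → ℂ) {j i : ℕ} (hi : i < k) : emb t u k L (k * j + i) =
    u ^ i * ((1 - t) / (1 - u)) * L j + (1 - u ^ i) / (1 - u) * (L (j + 1) - t * L j) := by
  unfold emb
  rw [Nat.mul_add_mod, Nat.mod_eq_of_lt hi, Nat.mul_add_div (by omega), Nat.div_eq_of_lt hi,
    Nat.add_zero]

theorem emb_mul (L : ℕ → ℂ) (hk : 0 < k) (j : ℕ) :
    emb t u k L (k * j) = (1 - t) / (1 - u) * L j := by
  have := emb_add (t := t) (u := u) L (j := j) (i := 0) hk
  simpa using this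

theorem emb_zero {L : ℕ → ℂ} (h0 : L 0 = 0) (hk : 0 < k) : emb t u k L 0 = 0 := by
  have := emb_mul (t := t) (u := u) L hk 0
  simpa [h0] using this

/-- powers of `T_p`, before the first entry has gone round -/
theorem act_replicate' {M : ℕ → ℂ} (h0 : M 0 = 0) {p : ℕ} : ∀ k ≤ p, ∀ j ≤ p,
    act t (List.replicate k p) M j =
      (if j + k ≤ p then M (j + k) else M p + t ^ p * M (j + k - p)) - t ^ j * M k := by
  intro k
  induction k with
  | zero =>
    intro _ j hj
    rw [if_pos (by omega)]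
    simp [h0]
  | succ k ih =>
    intro hk j hj
    have hk' := ih (by omega)
    rw [List.replicate_succ', act_append]
    simp only [act_cons, act_nil]
    have e2 : 1 + k = k + 1 := by ring
    unfold T
    by_cases h1 : j < p
    · rw [if_pos h1, hk' (j + 1) (by omega), hk' 1 (by omega), if_pos (by omega : 1 + k ≤ p)]
      have e1 : j + 1 + k = j + (k + 1) := by ring
      rw [e1, e2]
      ring
    · have hjn : j = p := by omega
      rw [if_neg h1, hk' j hj, hjn, if_neg (by omega : ¬ p + (k + 1) ≤ p)]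
      have e3 : p + (k + 1) - p = k + 1 := by omega
      rw [e3]
      by_cases h3 : k = 0
      · subst h3
        simp [h0]
      · rw [if_neg (by omega)]
        have e4 : p + k - p = k := by omega
        rw [e4]
        ring

theorem act_replicate_of_lt (M : ℕ → ℂ) {p : ℕ} (k : ℕ) {j : ℕ} (hj : p ≤ j) :
    act t (List.replicate k p) M j = M j := by
  induction k generalizing M with
  | zero => rfl
  | succ k ih =>
    rw [List.replicate_succ, act_cons, ih, T_of_le hj]

/-- one letter -/
theorem emb_T {L : ℕ → ℂ} (h0 : L 0 = 0) (hk : 0 < k) (hu : u ^ k = t) (hu1 : u ≠ 1) (r : ℕ) :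
    act u (List.replicate k (k * r)) (emb t u k L) = emb t u k (T t r L) := by
  have hv : (1 : ℂ) - u ≠ 0 := sub_ne_zero.2 (Ne.symm hu1)
  funext m
  obtain ⟨j, i, hi, rfl⟩ : ∃ j i, i < k ∧ m = k * j + i :=
    ⟨m / k, m % k, Nat.mod_lt _ hk, (Nat.div_add_mod m k).symm⟩
  rcases Nat.eq_zero_or_pos r with hr | hr
  · subst hr
    rw [Nat.mul_zero, act_replicate_of_lt _ _ (Nat.zero_le _)]
    congr 1
  have hkr : k ≤ k * r := Nat.le_mul_of_pos_right k hr
  have hM0 : emb t u k L 0 = 0 := emb_zero h0 hk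
  have hMk : emb t u k L k = (1 - t) / (1 - u) * L 1 := by
    have := emb_mul (t := t) (u := u) L hk 1
    rwa [Nat.mul_one] at this
  by_cases hjr : r ≤ j
  · have h1 : k * r ≤ k * j + i := (Nat.mul_le_mul_left k hjr).trans (Nat.le_add_right _ _)
    rw [act_replicate_of_lt _ _ h1, emb_add _ hi, emb_add _ hi, T_of_le hjr,
      T_of_le (by omega : r ≤ j + 1)]
  push Not at hjr
  have hlt : k * j + k ≤ k * r := by
    have := Nat.mul_le_mul_left k (by omega : j + 1 ≤ r)
    rwa [Nat.mul_add, Nat.mul_one] at this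
  rw [act_replicate' hM0 k hkr (k * j + i) (by omega), hMk]
  have hpow : u ^ (k * j + i) = t ^ j * u ^ i := by
    rw [pow_add, pow_mul, hu]
  have hpr : u ^ (k * r) = t ^ r := by rw [pow_mul, hu]
  rw [hpow, emb_add _ hi]
  have hT1 : T t r L j = L (j + 1) - t ^ j * L 1 := by
    unfold T
    rw [if_pos hjr]
  have hg := g_T (t := t) (L := L) r j
  unfold g at hg
  rw [hg, hT1]
  by_cases hj1 : j + 1 < r
  · have h2 : k * j + i + k ≤ k * r := by
      have := Nat.mul_le_mul_left k (by omega : j + 2 ≤ r)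
      rw [Nat.mul_add] at this
      omega
    rw [if_pos h2, if_pos hj1]
    have e : k * j + i + k = k * (j + 1) + i := by ring
    rw [e, emb_add _ hi]
    ring
  · have hjr' : r = j + 1 := by omega
    subst hjr'
    rw [if_neg hj1, if_pos rfl]
    have hp1 : t ^ (j + 1) = t ^ j * t := pow_succ t j
    by_cases hi0 : i = 0
    · subst hi0
      have e : k * j + 0 + k = k * (j + 1) := by ring
      rw [e, if_pos le_rfl, emb_mul _ hk]
      simp
      ring
    · have h2 : ¬ (k * j + i + k ≤ k * (j + 1)) := by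
        rw [Nat.mul_add]
        omega
      rw [if_neg h2, emb_mul _ hk, hpr]
      have e : k * j + i + k - k * (j + 1) = k * 0 + i := by
        rw [Nat.mul_add]
        omega
      rw [e, emb_add _ hi, h0]
      field_simp
      ring

theorem emb_act (hk : 0 < k) (hu : u ^ k = t) (hu1 : u ≠ 1) :
    ∀ (A : List ℕ) (L : ℕ → ℂ), L 0 = 0 →
    act u (A.flatMap fun r => List.replicate k (k * r)) (emb t u k L) =
      emb t u k (act t A L) := by
  intro A
  induction A with
  | nil => intro L _; rfl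
  | cons r A ih =>
    intro L hL
    rw [List.flatMap_cons, act_append, emb_T hL hk hu hu1, act_cons]
    exact ih (T t r L) (T_zero hL r)

theorem emb_congr {L M : ℕ → ℂ} {n : ℕ} (hk : 0 < k) (h : ∀ j ≤ n, L j = M j) :
    ∀ m ≤ k * n, emb t u k L m = emb t u k M m := by
  intro m hm
  obtain ⟨j, i, hi, rfl⟩ : ∃ j i, i < k ∧ m = k * j + i :=
    ⟨m / k, m % k, Nat.mod_lt _ hk, (Nat.div_add_mod m k).symm⟩
  rw [emb_add _ hi, emb_add _ hi]
  have hj : j ≤ n := by
    by_contra hc
    push Not at hc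
    have := Nat.mul_le_mul_left k hc
    rw [Nat.succ_eq_add_one, Nat.mul_add] at this
    omega
  rw [h j hj]
  by_cases hi0 : i = 0
  · subst hi0
    simp
  · have hj1 : j + 1 ≤ n := by
      by_contra hc
      have : j = n := by omega
      subst this
      omega
    rw [h (j + 1) hj1]

/-- cabling: a fixed vector at `t` gives one at a `k`-th root of `t` -/
theorem cable {L : ℕ → ℂ} {n : ℕ} (h0 : L 0 = 0) (hk : 0 < k) (hu : u ^ k = t) (hu1 : u ≠ 1)
    (A : List ℕ) (hfix : ∀ j ≤ n, act t A L j = L j) :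
    ∃ L' : ℕ → ℂ, L' 0 = 0 ∧ (∀ j, L' (k * j) = (1 - t) / (1 - u) * L j) ∧
      ∀ m ≤ k * n, act u (A.flatMap fun r => List.replicate k (k * r)) L' m = L' m := by
  refine ⟨emb t u k L, emb_zero h0 hk, emb_mul L hk, fun m hm => ?_⟩
  rw [emb_act hk hu hu1 A L h0]
  exact emb_congr hk hfix m hm

end Pool.Agent.Helper87.TW
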